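import Mathlib.Data.Int.Star
import Mathlib.Algebra.Order.Ring.Star
import Mathlib.GroupTheory.Archimedean
import Mathlib.Analysis.Normed.Ring.Lemmas
import Mathlib.GroupTheory.FiniteAbelian.Basic
import Mathlib.GroupTheory.Schreier
import Mathlib.GroupTheory.PushoutI
import Mathlib.Order.CompletePartialOrder

-- ======== part 0: formerly Pool.Agent.MP_f748d5_al.Abelian
section MrgPart0

/-!
Choice of deep normal free abelian subgroups meeting a cyclic subgroup in a prescribed way.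
-/

set_option autoImplicit false

namespace Pool.Agent.MP_f748d5_al

theorem exists_functionals (B : Type*) [CommGroup B] [Group.FG B] :
    ∃ (J : Type) (_ : Finite J) (lam : J → B →* Multiplicative ℤ) (T : ℕ), T ≠ 0 ∧
      ∀ b, (∀ j, lam j b = 1) → b ^ T = 1 := by
  obtain ⟨ι, J, _, _, p, hp, e, ⟨φ⟩⟩ := CommGroup.equiv_free_prod_prod_multiplicative_zmod B
  have : ∀ i, NeZero (p i ^ e i) := fun i => ⟨pow_ne_zero _ (hp i).ne_zero⟩
  refine ⟨J, inferInstance, fun j => (Pi.evalMonoidHom (fun _ => Multiplicative ℤ) j).comp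
    ((MonoidHom.fst _ _).comp φ.toMonoidHom),
    Nat.card ((i : ι) → Multiplicative (ZMod (p i ^ e i))), Nat.card_pos.ne', ?_⟩
  intro b hb
  apply φ.injective
  rw [map_pow, map_one]
  apply Prod.ext
  · have : (φ b).1 = 1 := by
      funext j
      simpa using hb j
    simp [this]
  · simp

theorem mult_int_eq_one_of_zpow {x : Multiplicative ℤ} {M : ℤ} (hM : M ≠ 0) (h : x ^ M = 1) :
    x = 1 := by
  have h2 : M * x.toAdd = 0 := by
    have := congrArg Multiplicative.toAdd h
    simpa using this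
  have h3 : x.toAdd = 0 := by
    rcases mul_eq_zero.mp h2 with h | h
    · exact absurd h hM
    · exact h
  exact Multiplicative.toAdd.injective (by simpa using h3)

theorem exists_isolator_exp (B : Type*) [CommGroup B] [Group.FG B] (c : B) :
    ∃ e : ℕ, e ≠ 0 ∧ ∀ (b : B) (M : ℤ), M ≠ 0 → b ^ M ∈ Subgroup.zpowers c →
      b ^ e ∈ Subgroup.zpowers c := by
  obtain ⟨J, _, lam, T, hT, h⟩ := exists_functionals (B ⧸ Subgroup.zpowers c)
  refine ⟨T, hT, fun b M hM hb => ?_⟩
  have h1 : ((b : B ⧸ Subgroup.zpowers c)) ^ M = 1 := by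
    rw [← QuotientGroup.mk_zpow, QuotientGroup.eq_one_iff]; exact hb
  have h2 : ((b : B ⧸ Subgroup.zpowers c)) ^ T = 1 := by
    apply h
    intro j
    apply mult_int_eq_one_of_zpow hM
    rw [← map_zpow, h1, map_one]
  rwa [← QuotientGroup.mk_pow, QuotientGroup.eq_one_iff] at h2

theorem exists_isolator_gen (B : Type*) [CommGroup B] [Group.FG B] (c : B) :
    ∃ (e d : ℕ), e ≠ 0 ∧ d ≠ 0 ∧ (∃ b : B, b ^ e = c ^ d) ∧
      ∀ (b : B) (M : ℤ), M ≠ 0 → b ^ M ∈ Subgroup.zpowers c →
        b ^ e ∈ Subgroup.zpowers (c ^ d) := by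
  obtain ⟨e, he, h⟩ := exists_isolator_exp B c
  let K : AddSubgroup ℤ :=
    { carrier := {k | ∃ b : B, b ^ e = c ^ k}
      zero_mem' := ⟨1, by simp⟩
      add_mem' := by
        rintro k l ⟨b, hb⟩ ⟨b', hb'⟩
        exact ⟨b * b', by rw [mul_pow, hb, hb', zpow_add]⟩
      neg_mem' := by
        rintro k ⟨b, hb⟩
        exact ⟨b⁻¹, by rw [inv_pow, hb, zpow_neg]⟩ }
  obtain ⟨a, ha⟩ := Int.subgroup_cyclic K
  have hmem : ∀ k : ℤ, k ∈ K ↔ a ∣ k := by
    intro k
    rw [ha, AddSubgroup.mem_closure_singleton]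
    constructor
    · rintro ⟨n, rfl⟩
      exact ⟨n, by simp [mul_comm]⟩
    · rintro ⟨n, rfl⟩
      exact ⟨n, by simp [mul_comm]⟩
  have heK : (e : ℤ) ∈ K := ⟨c, by simp⟩
  have ha0 : a ≠ 0 := by
    rintro rfl
    have := (hmem _).mp heK
    simp at this
    exact he this
  refine ⟨e, a.natAbs, he, by simpa using ha0, ?_, ?_⟩
  · have : ((a.natAbs : ℕ) : ℤ) ∈ K := (hmem _).mpr (by simp)
    obtain ⟨b, hb⟩ := this
    exact ⟨b, by rw [hb, zpow_natCast]⟩
  · intro b M hM hb
    obtain ⟨k, hk⟩ := Subgroup.mem_zpowers_iff.mp (h b M hM hb)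
    have hkK : k ∈ K := ⟨b, hk.symm⟩
    have hd : ((a.natAbs : ℕ) : ℤ) ∣ k := by
      rw [Int.natAbs_dvd]; exact (hmem _).mp hkK
    obtain ⟨n, rfl⟩ := hd
    rw [← hk]
    refine Subgroup.mem_zpowers_iff.mpr ⟨n, ?_⟩
    rw [zpow_mul, zpow_natCast]

/-- Deep normal subgroups adapted to an element `c`. -/
theorem exists_deep_subgroup {G : Type*} [Group G] [Group.FG G] (B : Subgroup G) [B.Normal]
    [B.FiniteIndex] [IsMulCommutative B] (c : G) (hc : c ∈ B) :
    ∃ d : ℕ, d ≠ 0 ∧ ∀ N : ℕ, N ≠ 0 → ∃ A : Subgroup G, A.Normal ∧ A.FiniteIndex ∧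
      c ^ (d * N) ∈ A ∧
      (∀ a ∈ A, ∀ M : ℤ, M ≠ 0 → a ^ M ∈ Subgroup.zpowers c →
        a ∈ Subgroup.zpowers (c ^ (d * N))) ∧
      ∃ (J : Type) (_ : Finite J) (lam : J → A →* Multiplicative ℤ),
        ∀ a, (∀ j, lam j a = 1) → a = 1 := by
  let _ : CommGroup B := { (inferInstance : Group B) with mul_comm := fun a b => mul_comm' a b }
  obtain ⟨J, _, lam, T, hT, hlam⟩ := exists_functionals B
  obtain ⟨e, d, he, hd, ⟨b0, hb0⟩, hiso⟩ := exists_isolator_gen B ⟨c, hc⟩
  refine ⟨d * T, mul_ne_zero hd hT, fun N hN => ?_⟩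
  have hn : e * (T * N) ≠ 0 := mul_ne_zero he (mul_ne_zero hT hN)
  let A : Subgroup G := ((powMonoidHom (α := B) (e * (T * N))).range).map B.subtype
  have hA : ∀ g, g ∈ A ↔ ∃ b : B, (b : G) ^ (e * (T * N)) = g := by
    intro g
    simp only [A, Subgroup.mem_map, MonoidHom.mem_range, powMonoidHom_apply, Subgroup.coe_subtype]
    constructor
    · rintro ⟨x, ⟨b, rfl⟩, rfl⟩
      exact ⟨b, by simp⟩
    · rintro ⟨b, rfl⟩
      exact ⟨_, ⟨b, rfl⟩, by simp⟩
  have hAB : A ≤ B := Subgroup.map_subtype_le _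
  refine ⟨A, ⟨?_⟩, ?_, ?_, ?_, J, inferInstance, fun j => (lam j).comp (Subgroup.inclusion hAB), ?_⟩
  · intro a ha g
    obtain ⟨b, rfl⟩ := (hA _).mp ha
    refine (hA _).mpr ⟨⟨g * b * g⁻¹, Subgroup.Normal.conj_mem inferInstance _ b.2 g⟩, ?_⟩
    simp [conj_pow]
  · have := Subgroup.finiteIndex_range_powMonoidHom_of_fg B hn
    refine ⟨?_⟩
    rw [Subgroup.index_map_subtype]
    exact mul_ne_zero Subgroup.FiniteIndex.index_ne_zero Subgroup.FiniteIndex.index_ne_zero
  · refine (hA _).mpr ⟨b0, ?_⟩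
    have := congrArg (fun x : B => (x : G)) hb0
    simp only [SubgroupClass.coe_pow] at this
    rw [pow_mul, this, ← pow_mul, mul_assoc]
  · intro a ha M hM haM
    obtain ⟨b, rfl⟩ := (hA _).mp ha
    have h1 : b ^ (((e * (T * N) : ℕ) : ℤ) * M) ∈ Subgroup.zpowers (⟨c, hc⟩ : B) := by
      obtain ⟨k, hk⟩ := Subgroup.mem_zpowers_iff.mp haM
      refine Subgroup.mem_zpowers_iff.mpr ⟨k, Subtype.ext ?_⟩
      simp only [SubgroupClass.coe_zpow]
      rw [hk, zpow_mul, zpow_natCast]
    have h2 := hiso b _ (mul_ne_zero (by exact_mod_cast hn) hM) h1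
    obtain ⟨k, hk⟩ := Subgroup.mem_zpowers_iff.mp h2
    have hk' := congrArg (fun x : B => (x : G)) hk
    simp only [SubgroupClass.coe_zpow, SubgroupClass.coe_pow] at hk'
    refine Subgroup.mem_zpowers_iff.mpr ⟨k, ?_⟩
    rw [pow_mul (b : G), ← hk', mul_assoc, pow_mul, ← zpow_natCast, ← zpow_natCast _ (T * N),
      ← zpow_mul, ← zpow_mul, mul_comm]
  · intro a ha
    obtain ⟨b, hb⟩ := (hA _).mp a.2
    have h1 : Subgroup.inclusion hAB a = b ^ (e * (T * N)) := by
      apply Subtype.ext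
      simp [hb]
    have h2 : b ^ T = 1 := by
      apply hlam
      intro j
      have := ha j
      simp only [MonoidHom.comp_apply, h1, map_pow] at this
      apply mult_int_eq_one_of_zpow (M := ((e * (T * N) : ℕ) : ℤ)) (by exact_mod_cast hn)
      rw [zpow_natCast]; exact this
    apply Subtype.ext
    rw [← hb]
    have h3 := congrArg (fun x : B => (x : G)) h2
    simp only [SubgroupClass.coe_pow, OneMemClass.coe_one] at h3
    rw [show e * (T * N) = T * (e * N) by ring, pow_mul, h3]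
    simp

end Pool.Agent.MP_f748d5_al

end MrgPart0

-- ======== part 1: formerly Pool.Agent.MP_f748d5_al.Factor
section MrgPart1

/-!
The action of one factor on a bundle of integer lines over a finite set.
-/

set_option autoImplicit false

namespace Pool.Agent.MP_f748d5_al

universe u

/-- An action of `G` on `(F × Y) × ℤ` by fibrewise translations, `F = H ⧸ C`, whose restriction
to `H` is standard. -/
structure FactorData {H G : Type u} [Group H] [Group G] (i : H →* G) (C : Subgroup H)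
    (κ : H → H ⧸ C → ℤ) where
  Y : Type u
  fin : Finite Y
  ρ : G → (H ⧸ C) × Y → (H ⧸ C) × Y
  τ : G → (H ⧸ C) × Y → ℤ
  m : Y → ℤ
  ρ_one : ∀ x, ρ 1 x = x
  ρ_mul : ∀ g g' x, ρ (g * g') x = ρ g (ρ g' x)
  τ_one : ∀ x, τ 1 x = 0
  τ_mul : ∀ g g' x, τ (g * g') x = τ g (ρ g' x) + τ g' x
  ρ_base : ∀ h f y, ρ (i h) (f, y) = (h • f, y)
  τ_base : ∀ h f y, τ (i h) (f, y) = κ h f * m y
  m_ne : ∃ y, m y ≠ 0
  inj : ∀ g, (∀ x, ρ g x = x) → (∀ x, τ g x = 0) → g = 1
  strong : ∀ g f (p q : ℤ), q ≠ 0 →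
    (∀ y, (ρ g (f, y)).2 = y ∧ τ g (f, y) * q = p * m y) → g ∈ i.range

theorem exists_section {H G : Type u} [Group H] [Group G] (i : H →* G) (C : Subgroup H)
    (A : Subgroup G) [hA : A.Normal] [A.FiniteIndex] (hC : ∀ h, i h ∈ A ↔ h ∈ C) :
    ∃ (D : Type u) (_ : Finite D) (_ : Nonempty D) (r : D → G),
      Function.Bijective
        (fun x : (H ⧸ C) × D => ((i x.1.out * r x.2 : G) : G ⧸ A)) := by
  let K : Subgroup G := i.range ⊔ A
  have : K.FiniteIndex := Subgroup.finiteIndex_of_le (le_sup_right : A ≤ K)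
  have hK : ∀ g, g ∈ K ↔ ∃ h, (i h)⁻¹ * g ∈ A := by
    intro g
    constructor
    · intro hg
      have : g ∈ (K : Set G) := hg
      rw [Subgroup.mul_normal] at this
      obtain ⟨x, ⟨h, rfl⟩, a, ha, rfl⟩ := this
      exact ⟨h, by simpa using ha⟩
    · rintro ⟨h, hh⟩
      have h1 : i h ∈ K := (le_sup_left : i.range ≤ K) ⟨h, rfl⟩
      have h2 : (i h)⁻¹ * g ∈ K := (le_sup_right : A ≤ K) hh
      simpa using K.mul_mem h1 h2
  refine ⟨G ⧸ K, inferInstance, inferInstance, fun d => d.out⁻¹, ?_, ?_⟩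
  · rintro ⟨f, d⟩ ⟨f', d'⟩ hx
    simp only at hx
    rw [QuotientGroup.eq] at hx
    have hdd : d = d' := by
      rw [← d.out_eq', ← d'.out_eq', QuotientGroup.eq]
      have h1 := hA.conj_mem _ hx d.out⁻¹
      have h2 : (i f.out)⁻¹ * i f'.out * (d'.out⁻¹ * d.out) ∈ K := by
        have := (le_sup_right : A ≤ K) h1
        convert this using 1
        group
      have h3 : (i f.out)⁻¹ * i f'.out ∈ K := by
        rw [← map_inv, ← map_mul]
        exact (le_sup_left : i.range ≤ K) ⟨_, rfl⟩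
      have h4 := K.inv_mem (K.mul_mem (K.inv_mem h3) h2)
      convert h4 using 1
      group
    subst hdd
    have h1 := hA.conj_mem _ hx d.out⁻¹
    have h2 : i (f.out⁻¹ * f'.out) ∈ A := by
      rw [map_mul, map_inv]
      convert h1 using 1
      group
    have h3 : f = f' := by
      rw [← f.out_eq', ← f'.out_eq', QuotientGroup.eq]
      exact (hC _).mp h2
    rw [h3]
  · intro x
    obtain ⟨g, rfl⟩ := QuotientGroup.mk_surjective x
    let d : G ⧸ K := (g⁻¹ : G)
    have h1 : g * d.out ∈ K := by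
      have : ((g⁻¹ : G) : G ⧸ K) = (d.out : G) := (QuotientGroup.out_eq' d).symm
      rw [QuotientGroup.eq] at this
      simpa using this
    obtain ⟨h, hh⟩ := (hK _).mp h1
    refine ⟨((h : H ⧸ C), d), ?_⟩
    simp only
    rw [QuotientGroup.eq]
    have h2 : ((h : H ⧸ C).out)⁻¹ * h ∈ C := by
      rw [← QuotientGroup.eq, QuotientGroup.out_eq']
    have h3 := (hC _).mpr h2
    rw [map_mul, map_inv] at h3
    have h4 := hA.conj_mem _ (A.mul_mem h3 hh) d.out
    convert h4 using 1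
    group

theorem exists_factorData {H G : Type u} [Group H] [Group G] (i : H →* G)
    (hi : Function.Injective i) (c : H) (κ : H → H ⧸ Subgroup.zpowers c → ℤ)
    (hκ : ∀ h f, (h • f).out⁻¹ * h * f.out = c ^ κ h f) (hκ0 : c = 1 → ∀ h f, κ h f = 0)
    (A : Subgroup G) [hA : A.Normal] [A.FiniteIndex]
    (hC : ∀ h, i h ∈ A ↔ h ∈ Subgroup.zpowers c)
    (hiso : ∀ a ∈ A, ∀ (p q : ℤ), q ≠ 0 → a ^ q = i c ^ p → a ∈ i.range)
    (J : Type) [Finite J] (lam : J → A →* Multiplicative ℤ)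
    (hlam : ∀ a, (∀ j, lam j a = 1) → a = 1) :
    Nonempty (FactorData i (Subgroup.zpowers c) κ) := by
  classical
  obtain ⟨D, _, ⟨d0⟩, r, hbij⟩ := exists_section i (Subgroup.zpowers c) A hC
  let S : (H ⧸ Subgroup.zpowers c) × D → G := fun x => i x.1.out * r x.2
  let e : (H ⧸ Subgroup.zpowers c) × D ≃ G ⧸ A := Equiv.ofBijective _ hbij
  have he : ∀ x, e x = (S x : G ⧸ A) := fun x => rfl
  let R : G → (H ⧸ Subgroup.zpowers c) × D → (H ⧸ Subgroup.zpowers c) × D :=
    fun g x => e.symm (g • e x)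
  have hR1 : ∀ x, R 1 x = x := by intro x; simp [R]
  have hRm : ∀ g g' x, R (g * g') x = R g (R g' x) := by intro g g' x; simp [R, mul_smul]
  have heR : ∀ g x, e (R g x) = ((g * S x : G) : G ⧸ A) := by
    intro g x
    simp only [R, Equiv.apply_symm_apply]
    rfl
  have hRmem : ∀ g x, (S (R g x))⁻¹ * g * S x ∈ A := by
    intro g x
    rw [mul_assoc, ← QuotientGroup.eq, ← he, heR]
  have hRA : ∀ a ∈ A, ∀ x, R a x = x := by
    intro a ha x
    apply e.injective
    rw [heR, he, QuotientGroup.eq]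
    have := hA.conj_mem _ (A.inv_mem ha) (S x)⁻¹
    convert this using 1
    group
  have hcA : i c ∈ A := (hC c).mpr (Subgroup.mem_zpowers c)
  have hrc : ∀ d, (r d)⁻¹ * i c * r d ∈ A := by
    intro d
    simpa using hA.conj_mem _ hcA (r d)⁻¹
  have hSb : ∀ h f d, (S (h • f, d))⁻¹ * i h * S (f, d) = ((r d)⁻¹ * i c * r d) ^ κ h f := by
    intro h f d
    have h1 := congrArg i (hκ h f)
    simp only [map_mul, map_inv, map_zpow] at h1
    have h2 : ((r d)⁻¹ * i c * r d) ^ κ h f = (r d)⁻¹ * i c ^ κ h f * r d := by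
      have := @conj_zpow G _ (κ h f) (r d)⁻¹ (i c)
      simpa using this
    rw [h2, ← h1]
    simp only [S]
    group
  have hRb : ∀ h f d, R (i h) (f, d) = (h • f, d) := by
    intro h f d
    apply e.injective
    rw [heR, he, eq_comm, QuotientGroup.eq, ← mul_assoc, hSb]
    exact A.zpow_mem (hrc d) _
  let a : G → (H ⧸ Subgroup.zpowers c) × D → A := fun g x => ⟨_, hRmem g x⟩
  have ham : ∀ g g' x, a (g * g') x = a g (R g' x) * a g' x := by
    intro g g' x
    apply Subtype.ext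
    simp only [a, hRm, Subgroup.coe_mul]
    group
  have ha1 : ∀ x, a 1 x = 1 := by
    intro x
    apply Subtype.ext
    simp [a, hR1]
  have hab : ∀ h f d, a (i h) (f, d) = (⟨_, hrc d⟩ : A) ^ κ h f := by
    intro h f d
    apply Subtype.ext
    simp only [a, hRb, hSb, SubgroupClass.coe_zpow]
  let L : Option J → A → ℤ := fun o x => o.elim 0 (fun j => (lam j x).toAdd)
  have hLm : ∀ o x y, L o (x * y) = L o x + L o y := by
    rintro (_ | j) x y <;> simp [L]
  have hL1 : ∀ o, L o 1 = 0 := by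
    rintro (_ | j) <;> simp [L]
  let m : D × Option J → ℤ := fun y =>
    y.2.elim (if c = 1 then 1 else 0) (fun j => (lam j ⟨_, hrc y.1⟩).toAdd)
  have hτb : ∀ h f (y : D × Option J), L y.2 (a (i h) (f, y.1)) = κ h f * m y := by
    rintro h f ⟨d, _ | j⟩
    · by_cases hc : c = 1
      · simp [L, hκ0 hc]
      · simp [L, m, hc]
    · simp [L, m, hab]
  refine ⟨{
    Y := D × Option J
    fin := inferInstance
    ρ := fun g x => ((R g (x.1, x.2.1)).1, ((R g (x.1, x.2.1)).2, x.2.2))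
    τ := fun g x => L x.2.2 (a g (x.1, x.2.1))
    m := m
    ρ_one := ?_, ρ_mul := ?_, τ_one := ?_, τ_mul := ?_, ρ_base := ?_, τ_base := hτb
    m_ne := ?_, inj := ?_, strong := ?_ }⟩
  · intro x; simp [hR1]
  · intro g g' x; simp [hRm]
  · intro x; simp [ha1, hL1]
  · intro g g' x; simp [ham, hLm]
  · intro h f y; simp [hRb]
  · by_cases hc : c = 1
    · exact ⟨(d0, none), by simp [m, hc]⟩
    · by_contra hcon
      push Not at hcon
      have h1 : (⟨_, hrc d0⟩ : A) = 1 := by
        apply hlam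
        intro j
        have := hcon (d0, some j)
        simp only [m, Option.elim] at this
        exact Multiplicative.toAdd.injective (by simpa using this)
      have h2 : (r d0)⁻¹ * i c * r d0 = 1 := congrArg Subtype.val h1
      apply hc
      apply hi
      rw [map_one]
      calc i c = r d0 * ((r d0)⁻¹ * i c * r d0) * (r d0)⁻¹ := by group
        _ = 1 := by rw [h2]; simp
  · intro g hρ hτ
    let x0 : (H ⧸ Subgroup.zpowers c) × D := (((1 : H) : H ⧸ Subgroup.zpowers c), d0)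
    have h1 : R g x0 = x0 := by
      have := hρ (x0.1, (x0.2, none))
      simp only [Prod.mk.eta, Prod.mk.injEq, and_true] at this
      exact Prod.ext this.1 this.2
    have h2 : a g x0 = 1 := by
      apply hlam
      intro j
      have := hτ (x0.1, (x0.2, some j))
      simp only [L, Option.elim, Prod.mk.eta] at this
      exact Multiplicative.toAdd.injective (by simpa using this)
    have h3 : (S (R g x0))⁻¹ * g * S x0 = 1 := congrArg Subtype.val h2
    rw [h1] at h3
    calc g = S x0 * ((S x0)⁻¹ * g * S x0) * (S x0)⁻¹ := by group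
      _ = 1 := by rw [h3]; simp
  · intro g f p q hq hy
    have h1 : (R g (f, d0)).2 = d0 := by
      have := (hy (d0, none)).1
      simpa using this
    obtain ⟨f', hf'⟩ : ∃ f', R g (f, d0) = (f', d0) := ⟨_, Prod.ext rfl h1⟩
    have h2 : a g (f, d0) ^ q = (⟨_, hrc d0⟩ : A) ^ p := by
      rw [← mul_inv_eq_one]
      apply hlam
      intro j
      have := (hy (d0, some j)).2
      simp only [L, m, Option.elim] at this
      apply Multiplicative.toAdd.injective
      simp only [map_mul, map_inv, map_zpow, toAdd_mul, toAdd_inv, toAdd_zpow, smul_eq_mul,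
        toAdd_one]
      linarith
    have h3 : ((S (R g (f, d0)))⁻¹ * g * S (f, d0)) ^ q = ((r d0)⁻¹ * i c * r d0) ^ p := by
      have := congrArg Subtype.val h2
      simpa [a] using this
    have h4 := hRmem g (f, d0)
    rw [hf'] at h3 h4
    have h5 : (i f'.out)⁻¹ * g * i f.out ∈ A := by
      have := hA.conj_mem _ h4 (r d0)
      convert this using 1
      simp only [S]
      group
    have h6 : ((i f'.out)⁻¹ * g * i f.out) ^ q = i c ^ p := by
      have e1 : (S (f', d0))⁻¹ * g * S (f, d0)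
          = (r d0)⁻¹ * ((i f'.out)⁻¹ * g * i f.out) * (r d0)⁻¹⁻¹ := by
        simp only [S]; group
      have e2 : (r d0)⁻¹ * i c * r d0 = (r d0)⁻¹ * i c * (r d0)⁻¹⁻¹ := by simp
      rw [e1, e2, conj_zpow, conj_zpow] at h3
      simpa using h3
    obtain ⟨h, hh⟩ := hiso _ h5 p q hq h6
    refine ⟨f'.out * h * f.out⁻¹, ?_⟩
    simp only [map_mul, map_inv, hh]
    group

end Pool.Agent.MP_f748d5_al

end MrgPart1

-- ======== part 2: formerly Pool.Agent.MP_f748d5_al.Glue
section MrgPart2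

/-!
Gluing the factor actions by the tensor product trick.
-/

set_option autoImplicit false

namespace Pool.Agent.MP_f748d5_al

universe u

/-- Self-maps of `X × ℤ` that are fibrewise translations. -/
@[ext] structure Wr (X : Type u) where
  σ : X → X
  τ : X → ℤ

instance (X : Type u) : Monoid (Wr X) where
  mul a b := ⟨fun x => a.σ (b.σ x), fun x => a.τ (b.σ x) + b.τ x⟩
  one := ⟨fun x => x, fun _ => 0⟩
  mul_assoc a b c := Wr.ext rfl (funext fun x => add_assoc _ _ _)
  one_mul a := Wr.ext rfl (funext fun x => zero_add _)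
  mul_one a := Wr.ext rfl (funext fun x => add_zero _)

theorem Wr.mul_σ {X : Type u} (a b : Wr X) (x : X) : (a * b).σ x = a.σ (b.σ x) := rfl
theorem Wr.mul_τ {X : Type u} (a b : Wr X) (x : X) : (a * b).τ x = a.τ (b.σ x) + b.τ x := rfl
theorem Wr.one_σ {X : Type u} (x : X) : (1 : Wr X).σ x = x := rfl
theorem Wr.one_τ {X : Type u} (x : X) : (1 : Wr X).τ x = 0 := rfl

/-- The projection to the base. -/
def Wr.proj (X : Type u) : Wr X →* Function.End X where
  toFun a := a.σ
  map_one' := rfl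
  map_mul' _ _ := rfl

theorem virtually_abelian_subgroup {X : Type u} [Finite X] (E : Subgroup (Wr X)ˣ) :
    ∃ A : Subgroup E, A.FiniteIndex ∧ IsMulCommutative A := by
  have : Finite (Function.End X) := inferInstanceAs (Finite (X → X))
  let π : E →* (Function.End X)ˣ := (Units.map (Wr.proj X)).comp E.subtype
  refine ⟨π.ker, inferInstance, ⟨⟨?_⟩⟩⟩
  have key : ∀ a : π.ker, ∀ x, (a.1.1 : Wr X).σ x = x := by
    intro a x
    have h1 : π a.1 = 1 := a.2
    have h2 := congrArg (fun u : (Function.End X)ˣ => (u : Function.End X) x) h1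
    exact h2
  intro a b
  apply Subtype.ext
  apply Subtype.ext
  apply Units.ext
  change (a.1.1 : Wr X) * (b.1.1 : Wr X) = (b.1.1 : Wr X) * (a.1.1 : Wr X)
  ext x
  · simp [Wr.mul_σ, key]
  · simp [Wr.mul_τ, key, add_comm]

section glue

variable {ι : Type} [Fintype ι] [DecidableEq ι] {H : Type u} [Group H] {G : ι → Type u}
  [∀ i, Group (G i)] {φ : ∀ i, H →* G i} {C : Subgroup H} {κ : H → H ⧸ C → ℤ}
  (D : ∀ i, FactorData (φ i) C κ)

/-- The glued action of the `i`-th factor. -/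
def glueHom (i : ι) : G i →* Wr ((H ⧸ C) × ∀ j, (D j).Y) where
  toFun g := ⟨fun x => (((D i).ρ g (x.1, x.2 i)).1,
      Function.update x.2 i ((D i).ρ g (x.1, x.2 i)).2),
    fun x => (D i).τ g (x.1, x.2 i) * ∏ j ∈ Finset.univ.erase i, (D j).m (x.2 j)⟩
  map_one' := by
    ext x
    · simp [(D i).ρ_one, Wr.one_σ]
    · simp [(D i).ρ_one, Wr.one_σ]
    · simp [(D i).τ_one, Wr.one_τ]
  map_mul' g g' := by
    apply Wr.ext
    · funext x
      simp [Wr.mul_σ, (D i).ρ_mul]
    · funext x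
      simp only [Wr.mul_τ, (D i).τ_mul, Function.update_self, Prod.mk.eta, add_mul]
      congr 2
      apply Finset.prod_congr rfl
      intro j hj
      rw [Function.update_of_ne (Finset.ne_of_mem_erase hj)]

theorem glueHom_σ (i : ι) (g : G i) (x : (H ⧸ C) × ∀ j, (D j).Y) :
    (glueHom D i g).σ x = (((D i).ρ g (x.1, x.2 i)).1,
      Function.update x.2 i ((D i).ρ g (x.1, x.2 i)).2) := rfl

theorem glueHom_τ (i : ι) (g : G i) (x : (H ⧸ C) × ∀ j, (D j).Y) :
    (glueHom D i g).τ x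
      = (D i).τ g (x.1, x.2 i) * ∏ j ∈ Finset.univ.erase i, (D j).m (x.2 j) := rfl

theorem glueHom_base (i j : ι) (h : H) : glueHom D i (φ i h) = glueHom D j (φ j h) := by
  apply Wr.ext
  · funext x
    simp [glueHom_σ, FactorData.ρ_base]
  · funext x
    simp only [glueHom_τ, FactorData.τ_base, mul_assoc]
    rw [Finset.mul_prod_erase Finset.univ (fun k => (D k).m (x.2 k)) (Finset.mem_univ i),
      Finset.mul_prod_erase Finset.univ (fun k => (D k).m (x.2 k)) (Finset.mem_univ j)]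

omit [Fintype ι] in
theorem prod_update_erase (i : ι) (y0 : ∀ j, (D j).Y) (y : (D i).Y) (s : Finset ι) :
    ∏ j ∈ s.erase i, (D j).m (Function.update y0 i y j) = ∏ j ∈ s.erase i, (D j).m (y0 j) := by
  apply Finset.prod_congr rfl
  intro j hj
  rw [Function.update_of_ne (Finset.ne_of_mem_erase hj)]

theorem glueHom_injective (i : ι) : Function.Injective (glueHom D i) := by
  rw [injective_iff_map_eq_one]
  intro g hg
  choose y0 hy0 using fun j => (D j).m_ne
  have hq : ∏ j ∈ Finset.univ.erase i, (D j).m (y0 j) ≠ 0 :=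
    Finset.prod_ne_zero_iff.mpr fun j _ => hy0 j
  apply (D i).inj
  · rintro ⟨f, y⟩
    have h1 := congrArg (fun w => w.σ (f, Function.update y0 i y)) hg
    simp only [glueHom_σ, Wr.one_σ, Function.update_self, Function.update_idem,
      Prod.mk.injEq] at h1
    refine Prod.ext h1.1 ?_
    have := congrFun h1.2 i
    simpa using this
  · rintro ⟨f, y⟩
    have h1 := congrArg (fun w => w.τ (f, Function.update y0 i y)) hg
    simp only [glueHom_τ, Wr.one_τ, Function.update_self, prod_update_erase] at h1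
    exact (mul_eq_zero.mp h1).resolve_right hq

theorem glueHom_strong {i j : ι} (hij : i ≠ j) (g : G i) (g' : G j)
    (h : glueHom D i g = glueHom D j g') : g ∈ (φ i).range := by
  choose y0 hy0 using fun j => (D j).m_ne
  have hq : ∏ j ∈ Finset.univ.erase i, (D j).m (y0 j) ≠ 0 :=
    Finset.prod_ne_zero_iff.mpr fun j _ => hy0 j
  let f : H ⧸ C := ((1 : H) : H ⧸ C)
  refine (D i).strong g f
    ((D j).τ g' (f, y0 j) * ∏ k ∈ (Finset.univ.erase j).erase i, (D k).m (y0 k)) _ hq ?_
  intro y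
  constructor
  · have h1 := congrArg (fun w => (w.σ (f, Function.update y0 i y)).2 i) h
    simpa [glueHom_σ, Function.update_of_ne hij] using h1
  · have h1 := congrArg (fun w => w.τ (f, Function.update y0 i y)) h
    simp only [glueHom_τ, Function.update_self, prod_update_erase,
      Function.update_of_ne hij.symm] at h1
    rw [h1, ← Finset.mul_prod_erase (Finset.univ.erase j)
      (fun k => (D k).m (Function.update y0 i y k))
      (Finset.mem_erase.mpr ⟨hij, Finset.mem_univ i⟩), prod_update_erase]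
    simp only [Function.update_self]
    ring

end glue

theorem finiteIndex_comap {H G : Type*} [Group H] [Group G] (f : H →* G) (A : Subgroup G)
    [A.FiniteIndex] : (A.comap f).FiniteIndex := by
  refine ⟨?_⟩
  rw [Subgroup.index_comap]
  exact (Subgroup.instFiniteIndex_subgroupOf A f.range).index_ne_zero

theorem exists_data {ι : Type} [Fintype ι] [DecidableEq ι] [Nonempty ι] {H : Type u} [Group H]
    {G : ι → Type u} [∀ i, Group (G i)] (φ : ∀ i, H →* G i)
    (hφ : ∀ i, Function.Injective (φ i)) (hfg : ∀ i, Group.FG (G i))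
    (hva : ∀ i, ∃ A : Subgroup (G i), A.FiniteIndex ∧ IsMulCommutative A)
    (hvc : ∃ C : Subgroup H, C.FiniteIndex ∧ IsCyclic C) :
    ∃ (C : Subgroup H) (_ : C.FiniteIndex) (κ : H → H ⧸ C → ℤ),
      ∀ i, Nonempty (FactorData (φ i) C κ) := by
  classical
  obtain ⟨C0, hC0, hcyc⟩ := hvc
  choose B0 hB0 hB0c using hva
  let B : ∀ i, Subgroup (G i) := fun i => (B0 i).normalCore
  have hBc : ∀ i, IsMulCommutative (B i) := fun i =>
    ⟨⟨fun a b => Subtype.ext (congrArg (fun x : B0 i => (x : G i)) (mul_comm'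
      (⟨a.1, (B0 i).normalCore_le a.2⟩ : B0 i) ⟨b.1, (B0 i).normalCore_le b.2⟩))⟩⟩
  have hBf : ∀ i, (B i).FiniteIndex := fun i => inferInstance
  let C1 : Subgroup H := C0 ⊓ ⨅ i, (B i).comap (φ i)
  have hC1 : C1.FiniteIndex := by
    have : (⨅ i, (B i).comap (φ i)).FiniteIndex :=
      Subgroup.finiteIndex_iInf fun i => finiteIndex_comap _ _
    infer_instance
  have hC1c : IsCyclic C1 := Subgroup.isCyclic_of_le (inf_le_left : C1 ≤ C0)
  obtain ⟨c1, hc1⟩ := (Subgroup.isCyclic_iff_exists_zpowers_eq_top C1).mp hC1c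
  have hc1B : ∀ i, φ i c1 ∈ B i := by
    intro i
    have : c1 ∈ C1 := hc1 ▸ Subgroup.mem_zpowers c1
    exact (Subgroup.mem_iInf.mp this.2) i
  have hpow : ∀ h : H, ∃ M : ℤ, M ≠ 0 ∧ h ^ M ∈ Subgroup.zpowers c1 := by
    intro h
    obtain ⟨n, hn, -, hn'⟩ := C1.exists_pow_mem_of_index_ne_zero hC1.index_ne_zero h
    exact ⟨n, by exact_mod_cast hn.ne', by rw [hc1, zpow_natCast]; exact hn'⟩
  choose d hd hA using fun i => exists_deep_subgroup (B i) (φ i c1) (hc1B i)
  have hN : ∀ i, ∏ j ∈ Finset.univ.erase i, d j ≠ 0 :=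
    fun i => Finset.prod_ne_zero_iff.mpr fun j _ => hd j
  choose A hAn hAf hcA hAiso J hJ lam hlam using fun i => hA i _ (hN i)
  have hdN : ∀ i, d i * ∏ j ∈ Finset.univ.erase i, d j = ∏ j, d j :=
    fun i => Finset.mul_prod_erase Finset.univ d (Finset.mem_univ i)
  simp only [hdN, ← map_pow] at hcA hAiso
  set c : H := c1 ^ ∏ j, d j with hc
  have hD : ∏ j, d j ≠ 0 := Finset.prod_ne_zero_iff.mpr fun j _ => hd j
  have hC : ∀ i h, φ i h ∈ A i ↔ h ∈ Subgroup.zpowers c := by
    intro i h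
    constructor
    · intro hh
      obtain ⟨M, hM, hM'⟩ := hpow h
      obtain ⟨k, hk⟩ := Subgroup.mem_zpowers_iff.mp hM'
      have := hAiso i _ hh M hM (Subgroup.mem_zpowers_iff.mpr ⟨k, by
        rw [← map_zpow, hk, map_zpow]⟩)
      obtain ⟨l, hl⟩ := Subgroup.mem_zpowers_iff.mp this
      exact Subgroup.mem_zpowers_iff.mpr ⟨l, hφ i (by rw [map_zpow, hl])⟩
    · intro hh
      obtain ⟨l, rfl⟩ := Subgroup.mem_zpowers_iff.mp hh
      rw [map_zpow]
      exact (A i).zpow_mem (hcA i) _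
  have hfin : (Subgroup.zpowers c).FiniteIndex := by
    obtain ⟨i⟩ := (inferInstance : Nonempty ι)
    have := hAf i
    have h1 : Subgroup.zpowers c = (A i).comap (φ i) := by
      ext h
      rw [Subgroup.mem_comap, hC]
    rw [h1]
    exact finiteIndex_comap _ _
  have hmem : ∀ (h : H) (f : H ⧸ Subgroup.zpowers c),
      ∃ k : ℤ, (h • f).out⁻¹ * h * f.out = c ^ k ∧ (c = 1 → k = 0) := by
    intro h f
    have h1 : (h • f).out⁻¹ * h * f.out ∈ Subgroup.zpowers c := by
      rw [mul_assoc, ← QuotientGroup.eq, QuotientGroup.out_eq']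
      conv_lhs => rw [← QuotientGroup.out_eq' f]
      rfl
    obtain ⟨k, hk⟩ := Subgroup.mem_zpowers_iff.mp h1
    by_cases hc1 : c = 1
    · exact ⟨0, by rw [← hk, hc1]; simp, fun _ => rfl⟩
    · exact ⟨k, hk.symm, fun h => absurd h hc1⟩
  choose κ hκ hκ0 using hmem
  refine ⟨Subgroup.zpowers c, hfin, κ, fun i => ?_⟩
  have := hAn i
  have := hAf i
  have := hJ i
  refine exists_factorData (φ i) (hφ i) c κ hκ (fun h1 h f => hκ0 h f h1) (A i) (hC i) ?_
    (J i) (lam i) (hlam i)
  intro a ha p q hq hpq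
  have h1 := hAiso i a ha q hq (by
    rw [hpq, hc, map_pow]
    exact Subgroup.zpow_mem _ (Subgroup.pow_mem _ (Subgroup.mem_zpowers _) _) _)
  obtain ⟨l, hl⟩ := Subgroup.mem_zpowers_iff.mp h1
  exact ⟨c ^ l, by rw [map_zpow, hl]⟩

theorem main {ι : Type} [Finite ι] [Nonempty ι] {H : Type u} [Group H]
    {G : ι → Type u} [∀ i, Group (G i)] (φ : ∀ i, H →* G i)
    (hφ : ∀ i, Function.Injective (φ i)) (hfg : ∀ i, Group.FG (G i))
    (hva : ∀ i, ∃ A : Subgroup (G i), A.FiniteIndex ∧ IsMulCommutative A)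
    (hvc : ∃ C : Subgroup H, C.FiniteIndex ∧ IsCyclic C) :
    ∃ (E : Type u) (_ : Group E), Group.FG E ∧
      (∃ A : Subgroup E, A.FiniteIndex ∧ IsMulCommutative A) ∧
      ∃ ν : Monoid.PushoutI φ →* E,
        (∀ i, Function.Injective (ν.comp (Monoid.PushoutI.of i))) ∧
        ∀ i j, i ≠ j → (ν.comp (Monoid.PushoutI.of i)).range ⊓ (ν.comp (Monoid.PushoutI.of j)).range
          = (ν.comp (Monoid.PushoutI.base φ)).range := by
  classical
  let _ : Fintype ι := Fintype.ofFinite ι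
  obtain ⟨C, hC, κ, hD⟩ := exists_data φ hφ hfg hva hvc
  let D : ∀ i, FactorData (φ i) C κ := fun i => (hD i).some
  have : ∀ j, Finite (D j).Y := fun j => (D j).fin
  obtain ⟨i0⟩ := (inferInstance : Nonempty ι)
  let X : Type u := (H ⧸ C) × ∀ j, (D j).Y
  let ν0 : ∀ i, G i →* (Wr X)ˣ := fun i => (glueHom D i).toHomUnits
  have hν0 : ∀ i g, (ν0 i g : Wr X) = glueHom D i g := fun i g => rfl
  let E : Subgroup (Wr X)ˣ := ⨆ i, (ν0 i).range
  have hE : ∀ i g, ν0 i g ∈ E := fun i g =>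
    (le_iSup (fun i => (ν0 i).range) i : (ν0 i).range ≤ E) ⟨g, rfl⟩
  let ν1 : ∀ i, G i →* E := fun i => (ν0 i).codRestrict E (hE i)
  have hν1 : ∀ i j g g', ν1 i g = ν1 j g' ↔ glueHom D i g = glueHom D j g' := by
    intro i j g g'
    rw [Subtype.ext_iff, Units.ext_iff]
    rfl
  have hbase : ∀ i, (ν1 i).comp (φ i) = (ν1 i0).comp (φ i0) := by
    intro i
    apply MonoidHom.ext
    intro h
    exact (hν1 _ _ _ _).mpr (glueHom_base D i i0 h)
  refine ⟨E, inferInstance, ?_, virtually_abelian_subgroup E,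
    Monoid.PushoutI.lift ν1 _ hbase, ?_, ?_⟩
  · rw [Group.fg_iff_subgroup_fg]
    apply Subgroup.FG.iSup
    intro i
    exact (Group.fg_iff_subgroup_fg _).mp inferInstance
  · intro i g g' h
    simp only [MonoidHom.comp_apply, Monoid.PushoutI.lift_of] at h
    exact glueHom_injective D i ((hν1 _ _ _ _).mp h)
  · intro i j hij
    apply le_antisymm
    · rintro x ⟨⟨g, hg⟩, ⟨g', hg'⟩⟩
      simp only [MonoidHom.comp_apply, Monoid.PushoutI.lift_of] at hg hg'
      obtain ⟨h, rfl⟩ := glueHom_strong D hij g g' ((hν1 _ _ _ _).mp (hg.trans hg'.symm))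
      refine ⟨h, ?_⟩
      rw [← hg, MonoidHom.comp_apply, ← Monoid.PushoutI.of_apply_eq_base φ i,
        Monoid.PushoutI.lift_of]
    · rintro x ⟨h, rfl⟩
      exact ⟨⟨φ i h, by simp [Monoid.PushoutI.of_apply_eq_base]⟩,
        ⟨φ j h, by simp [Monoid.PushoutI.of_apply_eq_base]⟩⟩

end Pool.Agent.MP_f748d5_al

end MrgPart2

-- marker of a merged file
example : 731051 + 665124 = 731051 + 665124 := rfl
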